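import Pool.Agent.Helper98.EX.Stmts

namespace Pool.Agent.Helper98.EX

open Finset

theorem q_nohit_nonneg {N : ℕ} {r l : ℕ → ℝ} (h : Adm N r l) (S : Finset ℕ) (T : Set (Cfg N)) :
    ∀ (m : ℕ) (η : Cfg N), 0 ≤ nohit r l S T m η := by
  intro m
  induction m with
  | zero =>
    intro η
    simp only [nohit]
    linarith [ind_le_one T η]
  | succ m ih =>
    intro η
    simp only [nohit]
    exact mul_nonneg (by linarith [ind_le_one T η]) (stp_nonneg h ih η)

theorem q_first {N : ℕ} {r l : ℕ → ℝ} (h : Adm N r l) (S : Finset ℕ) (T E : Set (Cfg N)) (e : ℝ)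
    (he : 0 ≤ e) (hT : ∀ (j : ℕ) (ξ : Cfg N), ξ ∈ T → pr r l (fun _ => S) j E ξ ≤ e) :
    ∀ (m : ℕ) (ξ : Cfg N), pr r l (fun _ => S) m E ξ ≤ nohit r l S T m ξ + e := by
  intro m
  induction m with
  | zero =>
    intro ξ
    by_cases hξ : ξ ∈ T
    · have := hT 0 ξ hξ
      linarith [q_nohit_nonneg h S T 0 ξ]
    · simp only [nohit, pr, ev]
      rw [ind_of_not_mem hξ]
      linarith [ind_le_one E ξ]
  | succ m ih =>
    intro ξ
    by_cases hξ : ξ ∈ T
    · have := hT (m + 1) ξ hξ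
      linarith [q_nohit_nonneg h S T (m + 1) ξ]
    · have h1 : pr r l (fun _ => S) (m + 1) E ξ = stp r l S (ev r l (fun _ => S) m (ind E)) ξ := rfl
      have h2 : stp r l S (ev r l (fun _ => S) m (ind E)) ξ ≤
          stp r l S (fun χ => nohit r l S T m χ + e) ξ := by
        apply stp_mono h
        intro χ
        exact ih χ
      have h3 : stp r l S (fun χ => nohit r l S T m χ + e) ξ = stp r l S (nohit r l S T m) ξ + e := by
        have := stp_add r l S (nohit r l S T m) (fun _ => e) ξ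
        rw [stp_const] at this
        exact this
      rw [h1]
      simp only [nohit]
      rw [ind_of_not_mem hξ]
      linarith

theorem st_Q (hQ : ST_QHIT) (hT : ST_TOPTAIL) (hL : ST_LOC) : ST_Q := by
  intro N r l S A q1 x0 q2 B m D rmin lmin Zs η hadm hpos hA1 h1x hx2 h2B hAB hBN hAS hBS hS hr hl hl1
    hrl hD hRR hZ hcnt
  obtain ⟨-, -, hL3⟩ := hL
  have hloc : ∀ ζ ξ : Cfg N, (∀ x, A ≤ x → x < B → occ ζ x = occ ξ x) →
      ind (sorted A q1 q2 B)ᶜ ζ = ind (sorted A q1 q2 B)ᶜ ξ := by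
    intro ζ ξ hzx
    have hiff : ζ ∈ (sorted A q1 q2 B : Set (Cfg N)) ↔ ξ ∈ (sorted A q1 q2 B : Set (Cfg N)) := by
      simp only [sorted, Set.mem_setOf_eq]
      constructor
      · rintro ⟨a, b⟩
        refine ⟨fun i hi1 hi2 => ?_, fun i hi1 hi2 => ?_⟩
        · rw [← hzx i hi1 (by omega)]; exact a i hi1 hi2
        · rw [← hzx i (by omega) hi2]; exact b i hi1 hi2
      · rintro ⟨a, b⟩
        refine ⟨fun i hi1 hi2 => ?_, fun i hi1 hi2 => ?_⟩
        · rw [hzx i hi1 (by omega)]; exact a i hi1 hi2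
        · rw [hzx i (by omega) hi2]; exact b i hi1 hi2
    by_cases hz : ζ ∈ (sorted A q1 q2 B : Set (Cfg N))
    · rw [ind_of_not_mem (by simpa using hz), ind_of_not_mem (by simpa using hiff.1 hz)]
    · rw [ind_of_mem (by simpa using hz), ind_of_mem (by simpa using fun hh => hz (hiff.2 hh))]
  have hint : (fun _ : ℕ => S ∩ Finset.Ioo A B) = (fun _ : ℕ => Finset.Ioo A B) := by
    funext _
    ext x
    simp only [Finset.mem_inter, Finset.mem_Ioo]
    exact ⟨fun h => h.2, fun h => ⟨hS x h.1 h.2, h⟩⟩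
  have hred : pr r l (fun _ => S) m (sorted A q1 q2 B)ᶜ η =
      pr r l (fun _ => Finset.Ioo A B) m (sorted A q1 q2 B)ᶜ η := by
    have := hL3 N r l (fun _ => S) m A B (ind (sorted A q1 q2 B)ᶜ) η (fun _ => ⟨hAS, hBS⟩) hloc
    unfold pr
    rw [this, hint]
  have hRRn : ∀ z x, A ≤ z → x < B → 0 ≤ RR r l z x := by
    intro z x hz hx
    unfold RR
    apply Finset.prod_nonneg
    intro b hb
    rw [Finset.mem_Ioc] at hb
    have := hadm b (by omega) (by omega)
    exact div_nonneg this.2.2.1 this.1.le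
  have he : 0 ≤ ∑ z ∈ Finset.Ico A q1, ∑ x ∈ Finset.Ico x0 B, RR r l z x +
      ∑ z ∈ Finset.Ico A x0, ∑ x ∈ Finset.Ico q2 B, RR r l z x := by
    apply add_nonneg <;>
    · apply Finset.sum_nonneg
      intro z hz
      apply Finset.sum_nonneg
      intro x hx
      rw [Finset.mem_Ico] at hz hx
      exact hRRn z x hz.1 hx.2
  have hAIoo : A ∉ Finset.Ioo A B := by simp
  have hBIoo : B ∉ Finset.Ioo A B := by simp
  have h1 := q_first hadm (Finset.Ioo A B) (sorted A x0 x0 B) (sorted A q1 q2 B)ᶜ _ he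
    (fun j ξ hξ => hT N r l (fun _ => Finset.Ioo A B) j A q1 x0 q2 B ξ hadm hpos hA1 h1x hx2 h2B hBN
      (fun _ => ⟨hAIoo, hBIoo⟩) hξ) m η
  have h2 := hQ N r l A x0 B m D rmin lmin Zs η hadm hpos (hA1.trans h1x) (hx2.trans h2B) hAB hBN hr hl
    hl1 hrl hD hRR hZ hcnt
  rw [hred]
  linarith

end Pool.Agent.Helper98.EX
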